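import Pool.Agent.Tri2.PolyAll

/-!
# Right cells of hyperbolic polygon groups

All definitions used in the statement are in `Pool/Agent/PolyCell/Stmt.lean`.
-/

open Pool.Agent.PolyCell

namespace Pool.Agent.Results.MP_338de0_co.PolygonCells

/-- The conjecture on right cells for all polygon groups: `n`-gons with `n ≥ 4` and arbitrary exponents (`0` = infinite), and all
hyperbolic triangles: `1/a₀ + 1/a₁ + 1/a₂ < 1`, where `1/∞ = 0` (in Lean `1/0 = 0`). -/
theorem result :
    ∀ (n : ℕ) [NeZero n], 3 ≤ n → ∀ (M : CoxeterMatrix (ZMod n)) (a : ZMod n → ℕ),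
      IsPolygon M a → (n = 3 → ∑ k, (1 : ℝ) / (a k : ℝ) < 1) →
      ∀ (W : Type) [Group W] (cs : CoxeterSystem M W), CellConj cs := by
  intro n _ hn M a hP h3 W _ cs
  exact cellConj_polygon hn hP h3 cs

end Pool.Agent.Results.MP_338de0_co.PolygonCells
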